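import Pool.Agent.Q9.SevenGroup

/-!
# A strongly indecomposable group of rank seven with noncommutative centrally essential
endomorphism ring
-/

set_option autoImplicit false

open Q9.Seven Q9.Trunc

namespace Pool.Agent.Results.MP_7bf690_al.RankSeven

/-- A torsion-free abelian group (of finite rank) is strongly indecomposable if it is nonzero and,
whenever `B`, `C` are subgroups and `n` is a positive integer with `n A ⊆ B ⊕ C`, one of `B`, `C`
is zero. -/
def StronglyIndecomposable (A : Type) [AddCommGroup A] : Prop :=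
  Nontrivial A ∧ ∀ (B C : AddSubgroup A) (n : ℕ), 0 < n → Disjoint B C →
    (∀ a : A, n • a ∈ B ⊔ C) → B = ⊥ ∨ C = ⊥

/-- The basis elements `x, y, x², y², c, t`. -/
def bas : Fin 6 → T ℤ :=
  ![⟨0, 1, 0, 0, 0, 0, 0⟩, ⟨0, 0, 1, 0, 0, 0, 0⟩, ⟨0, 0, 0, 1, 0, 0, 0⟩, ⟨0, 0, 0, 0, 1, 0, 0⟩,
    ⟨0, 0, 0, 0, 0, 1, 0⟩, ⟨0, 0, 0, 0, 0, 0, 1⟩]

lemma bas_pow (i : Fin 6) : bas i * bas i * bas i * bas i = 0 := by
  fin_cases i <;> (ext <;> simp [bas])

lemma exists_partition : ∃ g : ℕ → Fin 6, ∀ i, {p : ℕ | p.Prime ∧ g p = i}.Infinite := by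
  have hinf : Infinite {p : ℕ // p.Prime} := Nat.infinite_setOfPred_prime.to_subtype
  obtain ⟨e⟩ : Nonempty ({p : ℕ // p.Prime} ≃ ℕ × Fin 6) := nonempty_equiv_of_countable
  classical
  refine ⟨fun p => if h : p.Prime then (e ⟨p, h⟩).2 else 0, fun i => ?_⟩
  have h : Function.Injective fun n : ℕ => ((e.symm (n, i)) : ℕ) := by
    intro m n hmn
    have := e.symm.injective (Subtype.ext hmn)
    exact congrArg Prod.fst this
  refine (Set.infinite_range_of_injective h).mono ?_
  rintro _ ⟨n, rfl⟩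
  refine ⟨(e.symm (n, i)).2, ?_⟩
  show (if h : (((e.symm (n, i)) : ℕ)).Prime then (e ⟨_, h⟩).2 else 0) = i
  rw [dif_pos (e.symm (n, i)).2, Subtype.coe_eta, Equiv.apply_symm_apply]

/-- The partition of the primes. -/
noncomputable def g : ℕ → Fin 6 := exists_partition.choose

lemma g_spec (i : Fin 6) : {p : ℕ | p.Prime ∧ g p = i}.Infinite := exists_partition.choose_spec i

/-- The element `r_p` attached to the prime `p`. -/
noncomputable def r (p : ℕ) : T ℚ := ι (bas (g p))

lemma r_pow (p : ℕ) : r p * r p * r p * r p = 0 := by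
  rw [r, ← map_mul, ← map_mul, ← map_mul, bas_pow, map_zero]

/-- The element `N_p = p³ - p² r_p + p r_p² - r_p³`. -/
noncomputable def Np (p : ℕ) : T ℚ :=
  ((p : ℚ) ^ 3) • 1 - ((p : ℚ) ^ 2) • r p + (p : ℚ) • (r p * r p) - r p * r p * r p

lemma r_mem {p q : ℕ} {hq : q.Prime} : r p ∈ TI q hq := ι_mem_TI _

lemma natpow_mem_O {q : ℕ} (hq : q.Prime) (p k : ℕ) : ((p : ℚ) ^ k) ∈ O q hq := by
  have := int_mem_O hq ((p : ℤ) ^ k)
  push_cast at this
  exact this

lemma Np_mem {p q : ℕ} {hq : q.Prime} : Np p ∈ TI q hq := by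
  have h1 := natpow_mem_O hq p 1
  rw [pow_one] at h1
  exact Subring.sub_mem _ (Subring.add_mem _ (Subring.sub_mem _
    (smul_mem_TI (natpow_mem_O hq p 3) (Subring.one_mem _)) (smul_mem_TI (natpow_mem_O hq p 2) r_mem))
    (smul_mem_TI h1 (Subring.mul_mem _ r_mem r_mem)))
    (Subring.mul_mem _ (Subring.mul_mem _ r_mem r_mem) r_mem)

/-- The group. -/
def A : AddSubgroup (T ℚ) where
  carrier := {v | ∀ (p : ℕ) (hp : p.Prime), v * Np p ∈ TI p hp}
  zero_mem' := by
    intro p hp
    rw [zero_mul]; exact Subring.zero_mem _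
  add_mem' := by
    intro u v hu hv p hp
    rw [add_mul]; exact Subring.add_mem _ (hu p hp) (hv p hp)
  neg_mem' := by
    intro u hu p hp
    rw [neg_mul]; exact Subring.neg_mem _ (hu p hp)

lemma mem_A {v : T ℚ} : v ∈ A ↔ ∀ (p : ℕ) (hp : p.Prime), v * Np p ∈ TI p hp := Iff.rfl

lemma mem_A_of_forall {v : T ℚ} (h : ∀ (p : ℕ) (hp : p.Prime), v ∈ TI p hp) : v ∈ A :=
  fun p hp => Subring.mul_mem _ (h p hp) Np_mem

lemma ι_mem_A (s : T ℤ) : ι s ∈ A := mem_A_of_forall fun _ _ => ι_mem_TI s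

lemma one_mem_A : (1 : T ℚ) ∈ A := by
  have := ι_mem_A 1
  rwa [map_one] at this

lemma ι_mul_mem_A (s : T ℤ) {v : T ℚ} (hv : v ∈ A) : ι s * v ∈ A := by
  intro p hp
  rw [mul_assoc]
  exact Subring.mul_mem _ (ι_mem_TI s) (hv p hp)

lemma special_mem_A (p : ℕ) (hp : p.Prime) : (((p : ℚ) ^ 4)⁻¹) • ((p : ℚ) • 1 + r p) ∈ A := by
  intro q hq
  by_cases h : q = p
  · subst h
    have h1 : (((q : ℚ) ^ 4)⁻¹) • ((q : ℚ) • 1 + r q) * Np q =
        (((q : ℚ) ^ 4)⁻¹) • (((q : ℚ) ^ 4) • 1 - r q * r q * r q * r q) := by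
      rw [Np]
      ext <;> simp <;> ring
    have hq0 : ((q : ℚ) ^ 4) ≠ 0 := pow_ne_zero _ (by exact_mod_cast hq.ne_zero)
    rw [h1, r_pow, sub_zero, smul_smul, inv_mul_cancel₀ hq0, one_smul]
    exact Subring.one_mem _
  · have h1 : (((p : ℚ) ^ 4)⁻¹) • ((p : ℚ) • 1 + r p) * Np p ∈ TI q hq := by
      have h2 : (((p : ℚ) ^ 4)⁻¹) • ((p : ℚ) • 1 + r p) ∈ TI q hq := by
        refine smul_mem_TI (inv_mem_O hq hp h 4) (Subring.add_mem _ (smul_mem_TI ?_
          (Subring.one_mem _)) r_mem)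
        have := natpow_mem_O hq p 1
        rwa [pow_one] at this
      exact Subring.mul_mem _ h2 Np_mem
    refine Subring.mul_mem _ ?_ Np_mem
    refine smul_mem_TI (inv_mem_O hq hp h 4) (Subring.add_mem _ (smul_mem_TI ?_
          (Subring.one_mem _)) r_mem)
    have := natpow_mem_O hq p 1
    rwa [pow_one] at this

lemma nsmul_eq (n : ℕ) (v : T ℚ) : n • v = (n : ℚ) • v := by
  rw [Nat.cast_smul_eq_nsmul]

/-- An endomorphism of `A` which kills `1` is zero. -/
lemma eq_zero_of_one (f : AddMonoid.End A) (h1 : f ⟨1, one_mem_A⟩ = 0) : f = 0 := by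
  have hbas : ∀ i, f ⟨_, ι_mem_A (bas i)⟩ = 0 := by
    intro i
    apply Subtype.ext
    apply eq_zero_of_infinite_conditions ((f ⟨_, ι_mem_A (bas i)⟩ : A) : T ℚ) (ι (bas i)) _
      (g_spec i) (fun p hp => ι_mem_TI _)
    rintro p ⟨hp, hg⟩
    refine ⟨hp, _, (f ⟨_, special_mem_A p hp⟩).2 p hp, ?_⟩
    have h2 : (p ^ 4) • (⟨_, special_mem_A p hp⟩ : A) = p • ⟨1, one_mem_A⟩ + ⟨_, ι_mem_A (bas i)⟩ := by
      apply Subtype.ext
      push_cast
      rw [nsmul_eq, nsmul_eq, smul_smul]
      push_cast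
      rw [mul_inv_cancel₀ (pow_ne_zero _ (by exact_mod_cast hp.ne_zero)), one_smul, r, hg]
    have h3 := congrArg (fun z : A => (z : T ℚ)) (congrArg f h2)
    simp only [map_add, map_nsmul, h1, smul_zero, zero_add] at h3
    push_cast at h3
    rw [nsmul_eq] at h3
    push_cast at h3
    rw [← h3]
    have h4 : Np p = ((p : ℚ) ^ 3) • 1 - ((p : ℚ) ^ 2) • ι (bas i) +
        (p : ℚ) • (ι (bas i) * ι (bas i)) - ι (bas i) * ι (bas i) * ι (bas i) := by
      rw [Np, r, hg]
    rw [← h4]
    ext <;> simp <;> ring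
  -- all integral elements
  have hι : ∀ s : T ℤ, f ⟨_, ι_mem_A s⟩ = 0 := by
    intro s
    have h2 : (⟨_, ι_mem_A s⟩ : A) = s.a0 • ⟨1, one_mem_A⟩ + s.a1 • ⟨_, ι_mem_A (bas 0)⟩ +
        s.a2 • ⟨_, ι_mem_A (bas 1)⟩ + s.a3 • ⟨_, ι_mem_A (bas 2)⟩ + s.a4 • ⟨_, ι_mem_A (bas 3)⟩ +
        s.a5 • ⟨_, ι_mem_A (bas 4)⟩ + s.a6 • ⟨_, ι_mem_A (bas 5)⟩ := by
      apply Subtype.ext
      push_cast
      simp only [← Int.cast_smul_eq_zsmul ℚ]
      ext <;> simp [ι, bas]
    rw [h2]
    simp only [map_add, map_zsmul, h1, hbas, smul_zero, add_zero]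
  ext1 v
  obtain ⟨n, s, hn, hs⟩ := exists_mul_eq (v : T ℚ)
  have h2 : n • v = ⟨_, ι_mem_A s⟩ := by
    apply Subtype.ext
    push_cast
    rw [nsmul_eq, hs]
  have h3 := congrArg f h2
  rw [map_nsmul, hι] at h3
  have h4 := congrArg (fun z : A => (z : T ℚ)) h3
  push_cast at h4
  rw [nsmul_eq] at h4
  apply Subtype.ext
  have hn0 : (n : ℚ) ≠ 0 := by exact_mod_cast hn.ne'
  exact (smul_eq_zero.1 h4).resolve_left hn0

/-- Left multiplication by an integral element. -/
def left (s : T ℤ) : AddMonoid.End A where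
  toFun v := ⟨ι s * v, ι_mul_mem_A s v.2⟩
  map_zero' := by apply Subtype.ext; simp
  map_add' u v := by apply Subtype.ext; simp [mul_add]

lemma left_apply (s : T ℤ) (v : A) : ((left s v : A) : T ℚ) = ι s * v := rfl

/-- Every endomorphism of `A` is left multiplication by an element of `T ℚ`. -/
lemma eq_left (f : AddMonoid.End A) (v : A) :
    ((f v : A) : T ℚ) = ((f ⟨1, one_mem_A⟩ : A) : T ℚ) * v := by
  obtain ⟨n, s, hn, hs⟩ := exists_mul_eq ((f ⟨1, one_mem_A⟩ : A) : T ℚ)
  have h : n • f - left s = 0 := by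
    apply eq_zero_of_one
    apply Subtype.ext
    show ((n • f ⟨1, one_mem_A⟩ - left s ⟨1, one_mem_A⟩ : A) : T ℚ) = 0
    push_cast
    rw [left_apply, nsmul_eq, hs, mul_one, sub_self]
  have h2 := congrArg (fun z : A => (z : T ℚ)) (DFunLike.congr_fun h v)
  have h3 : (n : ℚ) • ((f v : A) : T ℚ) - ι s * v = 0 := by
    rw [← nsmul_eq]
    exact h2
  rw [← hs] at h3
  have h4 : ((n : ℚ) • ((f ⟨1, one_mem_A⟩ : A) : T ℚ)) * (v : T ℚ) =
      (n : ℚ) • (((f ⟨1, one_mem_A⟩ : A) : T ℚ) * (v : T ℚ)) := by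
    ext <;> simp <;> ring
  rw [h4, sub_eq_zero] at h3
  have hn0 : (n : ℚ) ≠ 0 := by exact_mod_cast hn.ne'
  exact smul_right_injective _ hn0 h3

/-- The value at `1`. -/
noncomputable def val (f : AddMonoid.End A) : T ℚ := ((f ⟨1, one_mem_A⟩ : A) : T ℚ)

lemma val_injective {f f' : AddMonoid.End A} (h : val f = val f') : f = f' := by
  ext1 v
  apply Subtype.ext
  rw [eq_left f, eq_left f']
  exact congrArg (· * (v : T ℚ)) h

lemma val_mul (f f' : AddMonoid.End A) : val (f * f') = val f * val f' :=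
  eq_left f (f' ⟨1, one_mem_A⟩)

lemma val_zero : val 0 = 0 := rfl

lemma val_one : val 1 = 1 := rfl

lemma val_left (s : T ℤ) : val (left s) = ι s := by
  show ι s * 1 = ι s
  rw [mul_one]

lemma central_of_val {f : AddMonoid.End A} (h1 : (val f).a1 = 0) (h2 : (val f).a2 = 0) :
    f ∈ Subring.center (AddMonoid.End A) := by
  rw [Subring.mem_center_iff]
  intro f'
  apply val_injective
  rw [val_mul, val_mul, T.mem_center h1 h2]

lemma centrallyEssential_A : CentrallyEssential (AddMonoid.End A) := by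
  intro f hf
  have hv : val f ≠ 0 := fun h => hf (val_injective (by rw [h, val_zero]))
  obtain ⟨d, hd, h1, h2, h3, h4, h5⟩ := T.exists_multiplier (val f) hv
  have hs : ∃ s : T ℤ, ι s = d := by
    rcases hd with rfl | rfl | rfl | rfl
    · exact ⟨⟨0, 0, 0, 0, 0, 0, 1⟩, by ext <;> simp [ι]⟩
    · exact ⟨⟨0, 0, 0, 1, 0, 0, 0⟩, by ext <;> simp [ι]⟩
    · exact ⟨⟨0, 0, 0, 0, 1, 0, 0⟩, by ext <;> simp [ι]⟩
    · exact ⟨1, map_one _⟩
  obtain ⟨s, hs⟩ := hs
  have hvs : val (left s) = d := by rw [val_left, hs]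
  have hvf : val (f * left s) = val f * d := by rw [val_mul, hvs]
  refine ⟨left s, central_of_val (by rw [hvs, h1]) (by rw [hvs, h2]), f * left s,
    central_of_val (by rw [hvf, h3]) (by rw [hvf, h4]), ?_, ?_, rfl⟩
  · intro h
    apply h5
    rw [← hvs, h, val_zero, mul_zero]
  · intro h
    apply h5
    rw [← hvf, h, val_zero]

lemma noncomm_A : ∃ f f' : AddMonoid.End A, f * f' ≠ f' * f := by
  refine ⟨left ⟨0, 1, 0, 0, 0, 0, 0⟩, left ⟨0, 0, 1, 0, 0, 0, 0⟩, fun h => ?_⟩
  have h1 := congrArg (fun f => (val f).a5) h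
  simp [val_mul, val_left, ι] at h1

/-- Elements of `T ℚ` with `a² = n a` are `0` or `n`. -/
lemma idem (n : ℚ) (hn : n ≠ 0) (a : T ℚ) (h : a * a = n • a) (h0 : a.a0 = 0) : a = 0 := by
  have e1 := congrArg T.a1 h
  have e2 := congrArg T.a2 h
  have e3 := congrArg T.a3 h
  have e4 := congrArg T.a4 h
  have e5 := congrArg T.a5 h
  have e6 := congrArg T.a6 h
  simp only [T.mul_a1, T.mul_a2, T.mul_a3, T.mul_a4, T.mul_a5, T.mul_a6, T.smul_a1, T.smul_a2,
    T.smul_a3, T.smul_a4, T.smul_a5, T.smul_a6, h0, zero_mul, mul_zero, zero_add, add_zero] at e1 e2 e3 e4 e5 e6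
  have h1 : a.a1 = 0 := by simpa [hn] using e1.symm
  have h2 : a.a2 = 0 := by simpa [hn] using e2.symm
  rw [h1] at e3 e5 e6
  rw [h2] at e4 e5 e6
  have h3 : a.a3 = 0 := by simpa [hn] using e3.symm
  have h4 : a.a4 = 0 := by simpa [hn] using e4.symm
  have h5 : a.a5 = 0 := by simpa [hn] using e5.symm
  rw [h3, h4] at e6
  have h6 : a.a6 = 0 := by simpa [hn] using e6.symm
  ext <;> simp [h0, h1, h2, h3, h4, h5, h6]

lemma stronglyIndecomposable_A : StronglyIndecomposable A := by
  refine ⟨⟨0, ⟨1, one_mem_A⟩, ?_⟩, ?_⟩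
  · intro h
    have := congrArg (fun z : A => (z : T ℚ).a0) h
    simp at this
  · intro B C n hn hBC hnA
    have hn0 : (n : ℚ) ≠ 0 := by exact_mod_cast hn.ne'
    -- torsion-freeness
    have htf : ∀ v : A, n • v = 0 → v = 0 := by
      intro v hv
      have h1 := congrArg (fun z : A => (z : T ℚ)) hv
      push_cast at h1
      rw [nsmul_eq] at h1
      exact Subtype.ext ((smul_eq_zero.1 h1).resolve_left hn0)
    -- decomposition
    have hdec : ∀ v : A, ∃ b : A, b ∈ B ∧ n • v - b ∈ C := by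
      intro v
      obtain ⟨b, hb, c, hc, h⟩ := AddSubgroup.mem_sup.1 (hnA v)
      exact ⟨b, hb, by rw [← h, add_sub_cancel_left]; exact hc⟩
    choose F hFB hFC using hdec
    have huniq : ∀ b b' : A, b ∈ B → b' ∈ B → b - b' ∈ C → b = b' := by
      intro b b' hb hb' hc
      have : b - b' = 0 := by
        have h1 : b - b' ∈ B := B.sub_mem hb hb'
        exact AddSubgroup.disjoint_def.1 hBC h1 hc
      exact sub_eq_zero.1 this
    let f : AddMonoid.End A :=
      { toFun := F
        map_zero' := by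
          apply huniq _ _ (hFB 0) B.zero_mem
          have := C.neg_mem (hFC 0)
          rw [smul_zero] at this
          simpa using this
        map_add' := by
          intro u v
          apply huniq _ _ (hFB _) (B.add_mem (hFB u) (hFB v))
          have h1 := C.sub_mem (C.add_mem (hFC u) (hFC v)) (hFC (u + v))
          have h2 : n • u - F u + (n • v - F v) - (n • (u + v) - F (u + v)) =
              F (u + v) - (F u + F v) := by rw [smul_add]; abel
          rwa [h2] at h1 }
    have hfB : ∀ b ∈ B, f b = n • b := by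
      intro b hb
      apply huniq _ _ (hFB b) (B.nsmul_mem hb n)
      have := C.neg_mem (hFC b)
      rwa [neg_sub] at this
    have hfC : ∀ c ∈ C, f c = 0 := by
      intro c hc
      apply huniq _ _ (hFB c) B.zero_mem
      have := C.sub_mem (C.nsmul_mem hc n) (hFC c)
      rwa [sub_sub_cancel, ← sub_zero (F c)] at this
    have hff : val f * val f = (n : ℚ) • val f := by
      rw [← val_mul, ← nsmul_eq]
      have h1 : (f * f) ⟨1, one_mem_A⟩ = n • f ⟨1, one_mem_A⟩ := hfB _ (hFB _)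
      exact congrArg (fun z : A => (z : T ℚ)) h1
    have h0 : (val f).a0 = 0 ∨ (val f).a0 = n := by
      have h1 := congrArg T.a0 hff
      simp only [T.mul_a0, T.smul_a0] at h1
      by_cases h2 : (val f).a0 = 0
      · exact Or.inl h2
      · exact Or.inr (mul_right_cancel₀ h2 h1)
    rcases h0 with h0 | h0
    · left
      have h1 : val f = 0 := idem n hn0 _ hff h0
      have h2 : f = 0 := val_injective (by rw [h1, val_zero])
      rw [eq_bot_iff]
      intro b hb
      have h3 := hfB b hb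
      rw [h2] at h3
      exact htf b h3.symm
    · right
      have h1 : (n : ℚ) • (1 : T ℚ) - val f = 0 := by
        apply idem n hn0
        · have e1 : ((n : ℚ) • (1 : T ℚ) - val f) * ((n : ℚ) • (1 : T ℚ) - val f) =
              ((n : ℚ) * n) • (1 : T ℚ) - (n : ℚ) • val f - (n : ℚ) • val f + val f * val f := by
            ext <;> simp <;> ring
          rw [e1, hff]
          ext <;> simp <;> ring
        · simp [h0]
      have h2 : val f = (n : ℚ) • (1 : T ℚ) := (sub_eq_zero.1 h1).symm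
      have h3 : ∀ v, f v = n • v := by
        intro v
        apply Subtype.ext
        rw [eq_left f v]
        push_cast
        rw [nsmul_eq]
        have : ((f ⟨1, one_mem_A⟩ : A) : T ℚ) = (n : ℚ) • (1 : T ℚ) := h2
        rw [this]
        ext <;> simp
      rw [eq_bot_iff]
      intro c hc
      apply htf c
      rw [← h3, hfC c hc]

lemma rank_A : Module.rank ℤ A = 7 := by
  apply le_antisymm
  · have h1 : Module.rank ℤ A ≤ Module.rank ℤ (T ℚ) :=
      LinearMap.rank_le_of_injective (A.subtype.toIntLinearMap) Subtype.val_injective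
    have h2 : Module.rank ℚ (T ℚ) = Module.rank ℤ (T ℚ) := IsFractionRing.rank_right_eq ℤ ℚ (T ℚ)
    have h3 : Module.rank ℚ (T ℚ) = 7 := by
      rw [LinearEquiv.rank_eq T.equivFun, rank_fin_fun]
      norm_num
    rw [← h2, h3] at h1
    exact h1
  · let F' : (Fin 7 → ℤ) →+ A :=
      { toFun := fun v => ⟨_, ι_mem_A ⟨v 0, v 1, v 2, v 3, v 4, v 5, v 6⟩⟩
        map_zero' := by
          apply Subtype.ext
          ext <;> simp [ι]
        map_add' := by
          intro u v
          apply Subtype.ext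
          push_cast
          rw [← map_add]
          rfl }
    let F : (Fin 7 → ℤ) →ₗ[ℤ] A := F'.toIntLinearMap
    have hF : Function.Injective F := by
      intro u v h
      have h1 : ι ⟨u 0, u 1, u 2, u 3, u 4, u 5, u 6⟩ = ι ⟨v 0, v 1, v 2, v 3, v 4, v 5, v 6⟩ :=
        congrArg (fun z : A => (z : T ℚ)) h
      ext i
      fin_cases i
      · have := congrArg T.a0 h1
        simpa [ι] using this
      · have := congrArg T.a1 h1
        simpa [ι] using this
      · have := congrArg T.a2 h1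
        simpa [ι] using this
      · have := congrArg T.a3 h1
        simpa [ι] using this
      · have := congrArg T.a4 h1
        simpa [ι] using this
      · have := congrArg T.a5 h1
        simpa [ι] using this
      · have := congrArg T.a6 h1
        simpa [ι] using this
    have h1 := LinearMap.rank_le_of_injective F hF
    rw [rank_fin_fun] at h1
    exact_mod_cast h1

/-- There is a strongly indecomposable torsion-free abelian group of rank `7` (so less than `8`)
whose endomorphism ring is noncommutative and centrally essential. -/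
theorem result : ∃ (A : Type) (_ : AddCommGroup A), (∀ (n : ℕ) (a : A), n ≠ 0 → n • a = 0 → a = 0) ∧
    Module.rank ℤ A = 7 ∧ StronglyIndecomposable A ∧
    (∃ f g : AddMonoid.End A, f * g ≠ g * f) ∧ CentrallyEssential (AddMonoid.End A) := by
  refine ⟨A, inferInstance, ?_, rank_A, stronglyIndecomposable_A, noncomm_A, centrallyEssential_A⟩
  intro n v hn hv
  have h1 := congrArg (fun z : A => (z : T ℚ)) hv
  push_cast at h1
  rw [nsmul_eq] at h1
  exact Subtype.ext ((smul_eq_zero.1 h1).resolve_left (by exact_mod_cast hn))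

end Pool.Agent.Results.MP_7bf690_al.RankSeven
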